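import Mathlib
import Pool.Agent.Helper831.SemiRiem
import Pool.Agent.Helper831.NilMetric

set_option maxSynthPendingDepth 3

/-!
# A 1-form growing linearly along the light-like geodesics of a closed Lorentzian manifold

The manifold is the Heisenberg nilmanifold with the flat complete Lorentzian metric
`2 dx dz + dy ^ 2`, and the 1-form is `dy - z dz`, which descends to the quotient.
Along every geodesic `γ` the number `a = dz (γ')` is constant, and `(dy - z dz) (γ')` is an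
affine function of the affine parameter with slope `- a ^ 2`.
-/

open scoped Manifold ContDiff Topology
open Set Filter
open Pool.Agent.Helper831

namespace Pool.Agent.Results.MP_64c48d_gt.LinearGrowthExample

/-- conservation of energy along the geodesics of the nilmanifold -/
theorem energy_const {γ : ℝ → NilMfd} (hγ : nilMetric.IsGeodesic γ) (t : ℝ) :
    nilMetric.form (γ t) (velocity (ℝ × ℝ × ℝ) γ t) (velocity (ℝ × ℝ × ℝ) γ t)
      = nilMetric.form (γ 0) (velocity (ℝ × ℝ × ℝ) γ 0) (velocity (ℝ × ℝ × ℝ) γ 0) := by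
  have hd : ∀ t, HasDerivAt
      (fun s => nilMetric.form (γ s) (velocity (ℝ × ℝ × ℝ) γ s) (velocity (ℝ × ℝ × ℝ) γ s))
      0 t := by
    intro t
    have he := chart_mem_atlas (ℝ × ℝ × ℝ) (γ t)
    have ht := mem_chart_source (ℝ × ℝ × ℝ) (γ t)
    have h1 := hasDerivAt_energy nilMetric he hγ ht
    refine h1.congr_of_eventuallyEq ?_
    have hcont : ContinuousAt γ t := (hγ.1 t).continuousAt
    have : ∀ᶠ r in 𝓝 t, γ r ∈ (chartAt (ℝ × ℝ × ℝ) (γ t)).source :=
      hcont.eventually_mem ((chartAt (ℝ × ℝ × ℝ) (γ t)).open_source.mem_nhds ht)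
    filter_upwards [this] with r hr
    have h := velocity_eq_cvec he ((hγ.1 r).mdifferentiableAt (by simp)) hr
    exact congrArg (fun p : TangentBundle 𝓘(ℝ, ℝ × ℝ × ℝ) NilMfd => nilMetric.form p.1 p.2 p.2) h
  exact is_const_of_deriv_eq_zero (fun t => (hd t).differentiableAt) (fun t => (hd t).deriv) t 0

/-- through every point there is a light-like geodesic with `dz (γ') = 1` -/
theorem exists_lightlike (x : NilMfd) : ∃ γ : ℝ → NilMfd, nilMetric.IsLightlikeGeodesic γ ∧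
    γ 0 = x ∧ nilZ.form (γ 0) (velocity (ℝ × ℝ × ℝ) γ 0) = 1 := by
  set v : TangentSpace 𝓘(ℝ, ℝ × ℝ × ℝ) x := ((0, 0, 1) : ℝ × ℝ × ℝ) with hv
  obtain ⟨γ, hγ, hγ0⟩ := nilMetric_complete x v
  have hz : nilZ.form (γ 0) (velocity (ℝ × ℝ × ℝ) γ 0) = 1 := by
    have h := congrArg (fun p : TangentBundle 𝓘(ℝ, ℝ × ℝ × ℝ) NilMfd => nilZ.form p.1 p.2) hγ0
    exact h
  have he : nilMetric.form (γ 0) (velocity (ℝ × ℝ × ℝ) γ 0) (velocity (ℝ × ℝ × ℝ) γ 0) = 0 := by
    have h := congrArg (fun p : TangentBundle 𝓘(ℝ, ℝ × ℝ × ℝ) NilMfd =>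
      nilMetric.form p.1 p.2 p.2) hγ0
    refine h.trans ?_
    show mink (0, 0, 1) (0, 0, 1) = (0 : ℝ)
    simp
  have hb : γ 0 = x := congrArg (fun p : TangentBundle 𝓘(ℝ, ℝ × ℝ × ℝ) NilMfd => p.1) hγ0
  refine ⟨γ, ⟨hγ, ?_, fun t => by rw [energy_const hγ t, he]⟩, hb, hz⟩
  -- a constant geodesic has zero velocity
  by_contra hcon
  push Not at hcon
  have hc : γ = fun _ => γ 0 := funext fun t => hcon t 0
  have hv0 : velocity (ℝ × ℝ × ℝ) γ 0 = 0 := by
    have h1 : HasMFDerivAt 𝓘(ℝ, ℝ) 𝓘(ℝ, ℝ × ℝ × ℝ) γ 0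
        (0 : TangentSpace 𝓘(ℝ, ℝ) (0 : ℝ) →L[ℝ] TangentSpace 𝓘(ℝ, ℝ × ℝ × ℝ) (γ 0)) := by
      have h2 := hasMFDerivAt_const (I := 𝓘(ℝ, ℝ)) (I' := 𝓘(ℝ, ℝ × ℝ × ℝ)) (γ 0) (0 : ℝ)
      exact h2.congr_of_eventuallyEq (Filter.Eventually.of_forall fun t => hcon t 0)
    unfold velocity
    rw [h1.mfderiv]
    rfl
  rw [hv0, map_zero] at hz
  exact zero_ne_one hz

/-- **Main theorem.** There are a closed connected smooth 3-manifold `M`, a geodesically complete
metric `g` of indefinite signature on `M` and a nontrivial 1-form `η` on `M` such that `η (γ')` is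
an affine function of the affine parameter along every light-like geodesic `γ` (even along every
geodesic), while through every point of `M` there is a light-like geodesic along which this affine
function has nonzero slope. -/
theorem result : ∃ (M : Type) (_ : TopologicalSpace M) (_ : ChartedSpace (ℝ × ℝ × ℝ) M)
    (_ : IsManifold 𝓘(ℝ, ℝ × ℝ × ℝ) ∞ M) (_ : CompactSpace M) (_ : T2Space M)
    (_ : ConnectedSpace M) (g : SemiRiemannianMetric (ℝ × ℝ × ℝ) M)
    (η : OneForm (ℝ × ℝ × ℝ) M),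
    g.IsIndefinite ∧ g.IsComplete ∧ (∃ x v, η.form x v ≠ 0) ∧
      (∀ γ : ℝ → M, g.IsGeodesic γ → ∃ C₁ C₂ : ℝ, ∀ t : ℝ,
        η.form (γ t) (velocity (ℝ × ℝ × ℝ) γ t) = C₁ * t + C₂) ∧
      ∀ x : M, ∃ γ : ℝ → M, g.IsLightlikeGeodesic γ ∧ γ 0 = x ∧
        ∃ C₁ C₂ : ℝ, C₁ ≠ 0 ∧ ∀ t : ℝ,
          η.form (γ t) (velocity (ℝ × ℝ × ℝ) γ t) = C₁ * t + C₂ := by
  refine ⟨NilMfd, inferInstance, inferInstance, inferInstance, inferInstance, inferInstance,
    inferInstance, nilMetric, nilY, nilMetric_indefinite, nilMetric_complete, ?_, ?_, ?_⟩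
  · obtain ⟨x⟩ : Nonempty NilMfd := inferInstance
    refine ⟨x, ((0, 1, 0) : ℝ × ℝ × ℝ), ?_⟩
    show yForm (chartAt (ℝ × ℝ × ℝ) x x) (0, 1, 0) ≠ (0 : ℝ)
    simp
  · intro γ hγ
    exact ⟨_, _, nilY_affine hγ⟩
  · intro x
    obtain ⟨γ, hγ, hx, hz⟩ := exists_lightlike x
    refine ⟨γ, hγ, hx, -1, nilY.form (γ 0) (velocity (ℝ × ℝ × ℝ) γ 0), by norm_num,
      fun t => ?_⟩
    have h := nilY_affine hγ.1 t
    rw [hz] at h
    rw [h]
    ring

end Pool.Agent.Results.MP_64c48d_gt.LinearGrowthExample
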